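import Pool.Agent.H49.KT.UTargets

/-!
# One interpreted step
-/

namespace Pool.Agent.H31.KT.ISx

open Turing Function
open Pool.Agent.H49.KT Pool.Agent.H49.KT.Uni
open Tok

theorem len_flatMap {α β : Type} (f : α → List β) : ∀ (l : List α) (a : α), a ∈ l →
    (f a).length ≤ (l.flatMap f).length := by
  intro l
  induction l with
  | nil => intro a h; simp at h
  | cons b l ih =>
    intro a h
    rw [List.mem_cons] at h
    rw [List.flatMap_cons, List.length_append]
    rcases h with h | h
    · subst h; omega
    · have := ih a h; omega

theorem len_tail (s : List ℕ) : (encW s.tail).length ≤ (encW s).length := by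
  cases s with
  | nil => simp
  | cons a s => simp [encW]

theorem encC_split (L : List (List ℕ)) (i : ℕ) (s : List ℕ) (h : L[i]? = some s) :
    encC L = encC (L.take i) ++ (ts :: (encW s ++ encC (L.drop (i + 1)))) := by
  obtain ⟨hi, hs⟩ := List.getElem?_eq_some_iff.1 h
  conv_lhs => rw [← List.take_append_drop i L, List.drop_eq_getElem_cons hi, hs]
  simp [encC]

theorem encC_set (L : List (List ℕ)) (i : ℕ) (s : List ℕ) (hi : i < L.length) :
    encC (L.set i s) = encC (L.take i) ++ (ts :: (encW s ++ encC (L.drop (i + 1)))) := by
  rw [List.set_eq_take_append_cons_drop, if_pos hi]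
  simp [encC]

theorem len_entry (B : List Blk) (q i x q' : ℕ) (es : List Ent) (w : List ℕ)
    (h : B[q]? = some (i, es)) (h' : es[x]? = some (w, q')) :
    (encW w).length ≤ (encP B).length := by
  have h1 : (encB (i, es)).length ≤ (encP B).length :=
    len_flatMap encB B _ (List.mem_of_getElem? h)
  have h2 : (encE (w, q')).length ≤ (es.flatMap encE).length :=
    len_flatMap encE es _ (List.mem_of_getElem? h')
  have h3 : (encW w).length ≤ (encE (w, q')).length := by
    simp only [encE, List.length_cons, List.length_append]
    omega
  have h4 : (es.flatMap encE).length ≤ (encB (i, es)).length := by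
    simp only [encB, List.length_cons, List.length_append]
    omega
  omega

theorem pf_IS : T_P1 → T_P2 → T_P3 → T_P4 → T_IS := by
  intro hP1 hP2 hP3 hP4 v u z B q q' L L' hst hem hprg hcfg hq
  obtain ⟨i, es, s, w, hB, hL, hes, rfl⟩ := hst
  obtain ⟨e1, e2, e3, e4, e5, e6, e7, e8⟩ := hem
  have hi : i < L.length := (List.getElem?_eq_some_iff.1 hL).1
  have l1 : (encC L).length = (encC (L.take i)).length + (1 + (encW s).length +
      (encC (L.drop (i + 1))).length) := by
    rw [encC_split L i s hL]
    simp only [List.length_cons, List.length_append]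
    omega
  have l2 : (mkd L i s.tail).length = (encC (L.take i)).length + (2 + (encW s.tail).length +
      (encC (L.drop (i + 1))).length) := by
    simp only [mkd, List.length_cons, List.length_append]
    omega
  have l3 := len_tail s
  have l4 := len_entry B q i (entIx s) q' es w hB hes
  refine ⟨?_, ?_⟩
  · obtain ⟨v1, k1, s1⟩ := hP1 v u z B q i es hB hprg e1 hq e3 e4
    obtain ⟨v2, k2, s2⟩ := hP2 v1 u (update z .i (us i)) L i s hL
      (by simpa [update] using hcfg) (by simpa [update] using e2) (by simp)
      (by simpa [update] using e5)
    obtain ⟨v3, k3, s3⟩ := hP3 v2 u (update (update (update (update z .i (us i)) .i []) .x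
      (us (entIx s))) .cfg (mkd L i s.tail)) B q i (entIx s) q' es w hB hes
      (by simpa [update] using hprg) (by simpa [update] using e1) (by simpa [update] using hq)
      (by simp [update]) (by simpa [update] using e6) (by simpa [update] using e7)
      (by simpa [update] using e8)
    obtain ⟨v4, k4, s4⟩ := hP4 v3 u (update (update (update (update (update (update
      (update z .i (us i)) .i []) .x (us (entIx s))) .cfg (mkd L i s.tail)) .x []) .w'
      (encW w)) .q (us q')) L i s.tail w hi (by simp [update]) (by simpa [update] using e2)
      (by simp [update])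
    refine ⟨v4, ?_, ?_⟩
    · unfold Kp at *
      rw [k4, k3, k2, k1]
    · have h7 := Spec.seq s1 (Spec.seq s2 (Spec.seq s3 s4))
      have hfin : ∀ z1 z2 : Nw → List Tok, z1 = z2 → ∀ T1 T2 : ℕ, T1 ≤ T2 →
          Spec istep (mk2 v u z) (mk2 v4 u z1) T1 → Spec istep (mk2 v u z) (mk2 v4 u z2) T2 := by
        intro z1 z2 h T1 T2 hT hs
        subst h
        exact hs.mono hT
      refine hfin _ _ ?_ _ _ ?_ h7
      · funext k
        cases k <;> simp [update, e4, e5, e7]
      · omega
  · have l5 : (encC (L.set i (w ++ s.tail))).length = (encC (L.take i)).length +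
        (1 + ((encW w).length + (encW s.tail).length) + (encC (L.drop (i + 1))).length) := by
      rw [encC_set L i _ hi]
      have : encW (w ++ s.tail) = encW w ++ encW s.tail := by simp [encW]
      rw [this]
      simp only [List.length_cons, List.length_append]
      omega
    omega

end Pool.Agent.H31.KT.ISx

namespace Pool.Agent.H31.KT

open Pool.Agent.H49.KT.Uni in
theorem pf_IS : T_P1 → T_P2 → T_P3 → T_P4 → T_IS := ISx.pf_IS

end Pool.Agent.H31.KT
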