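import Pool.Agent.H49.KT.UTargets

/-!
# Fourth pass of an interpreted step: inserting the new text at the mark
-/

namespace Pool.Agent.H31.KT

open Turing Function
open Pool.Agent.H49.KT Pool.Agent.H49.KT.Uni
open Tok

theorem tk_encS (y : ℕ) : tk ∉ encS y := by
  unfold encS
  simp

theorem tk_encW (w : List ℕ) : tk ∉ encW w := by
  unfold encW
  rw [List.mem_flatMap]
  rintro ⟨y, _, hy⟩
  exact tk_encS y hy

theorem tk_encC (L : List (List ℕ)) : tk ∉ encC L := by
  unfold encC
  rw [List.mem_flatMap]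
  rintro ⟨w, _, hw⟩
  rw [List.mem_cons] at hw
  rcases hw with hw | hw
  · exact absurd hw (by decide)
  · exact tk_encW w hw

theorem seg4 (u : IO → List Bool) : ∀ (l : List Tok), tk ∉ l → ∀ (v : Me) (z : Nw → List Tok),
    ∃ t, Seg body4 l (mk2 v u z) (mk2 (v.sr t) u (update z .cfg' (l.reverse ++ z .cfg')))
      (3 * l.length) := by
  intro l
  induction l with
  | nil =>
    intro _ v z
    refine ⟨v.r, ?_⟩
    simp only [List.reverse_nil, List.nil_append, update_eq_self]
    exact Seg.nil _ _
  | cons a l ih =>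
    intro hn v z
    rw [List.mem_cons, not_or] at hn
    obtain ⟨t, ht⟩ := ih hn.2 (v.sr a) (update z .cfg' (a :: z .cfg'))
    refine ⟨t, ?_⟩
    have hb : Spec body4 (mk2 (v.sr a) u z) (mk2 (v.sr a) u (update z .cfg' (a :: z .cfg')))
        (1 + 1) := by
      refine Spec.ite_f ?_ (sp_pushr (v.sr a) u z .cfg')
      have : a ≠ tk := fun h => hn.1 h.symm
      simp [this]
    have e := Seg.cons hb ht
    simp only [update_self, update_idem] at e
    have e2 : (a :: l).reverse ++ z .cfg' = l.reverse ++ a :: z .cfg' := by simp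
    rw [e2]
    exact e.mono (by simp only [List.length_cons]; omega)

theorem encC_set (L : List (List ℕ)) (i : ℕ) (w w' : List ℕ) (hi : i < L.length) :
    encC (L.set i (w' ++ w)) =
      encC (L.take i) ++ [ts] ++ (encW w' ++ (encW w ++ encC (L.drop (i + 1)))) := by
  rw [List.set_eq_take_append_cons_drop, if_pos hi]
  simp [encC, encW]

theorem pf_P4 : T_P4 := by
  intro v u z L i w w' hi hz hz' hw
  set A : List Tok := encC (L.take i) ++ [ts] with hA
  set B : List Tok := encW w ++ encC (L.drop (i + 1)) with hB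
  have hm : mkd L i w = A ++ (tk :: B) := by
    simp [mkd, hA, hB]
  have hAk : tk ∉ A := by
    rw [hA, List.mem_append, not_or]
    exact ⟨tk_encC _, by simp⟩
  have hBk : tk ∉ B := by
    rw [hB, List.mem_append, not_or]
    exact ⟨tk_encW _, tk_encC _⟩
  obtain ⟨t1', h1⟩ := seg4 u A hAk v (update z .cfg [])
  obtain ⟨t2, h2⟩ := sp_mv ((v.sr t1').sr tk) u
    (update (update z .cfg []) .cfg' (A.reverse ++ (update z .cfg []) .cfg'))
    (y := .w') (y' := .cfg') (by decide)
  have h2' : Spec body4 _ _ _ := Spec.ite_t (c₂ := pushr .cfg') (p := fun v => v.r == tk)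
    (by simp) h2
  obtain ⟨t3, h3⟩ := seg4 u B hBk (((v.sr t1').sr tk).sr t2) (update (update
    (update (update z .cfg []) .cfg' (A.reverse ++ (update z .cfg []) .cfg')) .w' []) .cfg'
    ((update (update z .cfg []) .cfg' (A.reverse ++ (update z .cfg []) .cfg') .w').reverse ++
      update (update z .cfg []) .cfg' (A.reverse ++ (update z .cfg []) .cfg') .cfg'))
  have h4 := h1.append (Seg.cons h2' h3)
  rw [← hm] at h4
  have h5 := sp_lp hz h4
  obtain ⟨t4, h6⟩ := sp_mv ((((v.sr t1').sr tk).sr t2).sr t3) u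
    (update (update (update
    (update (update z .cfg []) .cfg' (A.reverse ++ (update z .cfg []) .cfg')) .w' []) .cfg'
    ((update (update z .cfg []) .cfg' (A.reverse ++ (update z .cfg []) .cfg') .w').reverse ++
      update (update z .cfg []) .cfg' (A.reverse ++ (update z .cfg []) .cfg') .cfg')) .cfg'
    (B.reverse ++ (update (update
    (update (update z .cfg []) .cfg' (A.reverse ++ (update z .cfg []) .cfg')) .w' []) .cfg'
    ((update (update z .cfg []) .cfg' (A.reverse ++ (update z .cfg []) .cfg') .w').reverse ++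
      update (update z .cfg []) .cfg' (A.reverse ++ (update z .cfg []) .cfg') .cfg')) .cfg'))
    (y := .cfg') (y' := .cfg) (by decide)
  have h7 := Spec.seq h5 h6
  refine ⟨((((v.sr t1').sr tk).sr t2).sr t3).sr t4, rfl, ?_⟩
  have hfin : ∀ z1 z2 : Nw → List Tok, z1 = z2 → ∀ T1 T2 : ℕ, T1 ≤ T2 →
      Spec pass4 (mk2 v u z) (mk2 (((((v.sr t1').sr tk).sr t2).sr t3).sr t4) u z1) T1 →
      Spec pass4 (mk2 v u z) (mk2 (((((v.sr t1').sr tk).sr t2).sr t3).sr t4) u z2) T2 := by
    intro z1 z2 h T1 T2 hT hs
    subst h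
    exact hs.mono hT
  refine hfin _ _ ?_ _ _ ?_ h7
  · funext k
    rw [encC_set L i w w' hi]
    cases k <;> simp [update, hz', hw, hA, hB]
  · simp [update, hz', hw, hm]
    omega

end Pool.Agent.H31.KT
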